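import Pool.Agent.H66.IP.TA

/-!
# Board ipf (MP_0f8dca_lc), row EXL
-/

set_option autoImplicit false

open Finset Pool.Agent.H66.IP

namespace Pool.Agent.H69.IP

theorem pf_EXL : T_EXL := by
  intro V _ _ t y
  induction t with
  | lf c τ =>
    classical
    have hlv : ∀ y, 0 ≤ lv c τ y ∧ lv c τ y ≤ 1 := by
      intro y
      unfold lv
      split_ifs
      · exact ⟨zero_le_one, le_rfl⟩
      · exact ⟨le_rfl, zero_le_one⟩
    have hnn : ∀ x, 0 ≤ (if τ x = none then 0 else lv c τ y) := by
      intro x
      split_ifs
      · exact le_rfl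
      · exact (hlv y).1
    refine ⟨fun x => if τ x = none then 0 else lv c τ y, hnn, ?_, ?_⟩
    · have h1 : ∀ x, (if τ x = none then 0 else lv c τ y) ≤
          if x ∈ univ.filter (fun v => τ v ≠ none) then (1 : ℝ) else 0 := by
        intro x
        by_cases h : τ x = none
        · rw [if_pos h]
          split_ifs
          · exact zero_le_one
          · exact le_rfl
        · rw [if_neg h, if_pos (mem_filter.2 ⟨mem_univ x, h⟩)]
          exact (hlv y).2
      refine (sum_le_sum fun x _ => h1 x).trans ?_
      rw [sum_ite_mem, univ_inter, sum_const, nsmul_eq_mul, mul_one]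
      unfold Tr.wd
      exact_mod_cast le_of_eq (by congr)
    · intro y'
      have hs := sum_nonneg fun x (_ : x ∈ univ.filter (fun x => y x ≠ y' x)) => hnn x
      unfold Tr.ev
      by_cases hb : c = true ∧ ∀ v b, τ v = some b → y v = b
      · have h1 : lv c τ y = 1 := by
          unfold lv
          rw [if_pos hb]
        by_cases hb' : c = true ∧ ∀ v b, τ v = some b → y' v = b
        · have h2 : lv c τ y' = 1 := by
            unfold lv
            rw [if_pos hb']
          linarith
        · have h3 : ∃ v b, τ v = some b ∧ y' v ≠ b := by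
            by_contra hcon
            push Not at hcon
            exact hb' ⟨hb.1, hcon⟩
          obtain ⟨v, b, hv, hne⟩ := h3
          have hz : v ∈ univ.filter (fun x => y x ≠ y' x) := by
            rw [mem_filter]
            refine ⟨mem_univ _, fun h => hne ?_⟩
            rw [← h]
            exact hb.2 v b hv
          have h2 : (if τ v = none then 0 else lv c τ y) = 1 := by
            rw [if_neg (by rw [hv]; exact Option.some_ne_none b), h1]
          have h4 := single_le_sum (fun x (_ : x ∈ univ.filter (fun x => y x ≠ y' x)) => hnn x) hz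
          have h5 := (hlv y').1
          linarith
      · have h1 : lv c τ y = 0 := by
          unfold lv
          rw [if_neg hb]
        have h5 := (hlv y').1
        linarith
  | av l r ihl ihr =>
    obtain ⟨a, ha0, ha1, ha2⟩ := ihl
    obtain ⟨b, hb0, hb1, hb2⟩ := ihr
    refine ⟨fun x => (a x + b x) / 2, fun x => by linarith [ha0 x, hb0 x], ?_, ?_⟩
    · rw [← sum_div, sum_add_distrib]
      have h1 : ((l.wd : ℕ) : ℝ) ≤ ((Tr.av l r).wd : ℕ) := by
        exact_mod_cast le_max_left l.wd r.wd
      have h2 : ((r.wd : ℕ) : ℝ) ≤ ((Tr.av l r).wd : ℕ) := by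
        exact_mod_cast le_max_right l.wd r.wd
      linarith
    · intro y'
      have h1 := ha2 y'
      have h2 := hb2 y'
      rw [← sum_div, sum_add_distrib]
      unfold Tr.ev
      linarith
  | ch l r ihl ihr =>
    obtain ⟨a, ha0, ha1, ha2⟩ := ihl
    obtain ⟨b, hb0, hb1, hb2⟩ := ihr
    rcases le_total (r.ev y) (l.ev y) with h | h
    · refine ⟨a, ha0, ha1.trans ?_, ?_⟩
      · exact_mod_cast le_max_left l.wd r.wd
      · intro y'
        have h1 := ha2 y'
        unfold Tr.ev
        rw [max_eq_left h]
        have := le_max_left (l.ev y') (r.ev y')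
        linarith
    · refine ⟨b, hb0, hb1.trans ?_, ?_⟩
      · exact_mod_cast le_max_right l.wd r.wd
      · intro y'
        have h1 := hb2 y'
        unfold Tr.ev
        rw [max_eq_right h]
        have := le_max_right (l.ev y') (r.ev y')
        linarith

end Pool.Agent.H69.IP
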