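import Pool.Agent.H66.IP.TA

/-!
# Board ipf (MP_0f8dca_lc), row LIP
-/

set_option autoImplicit false

open Finset Pool.Agent.H66.IP

namespace Pool.Agent.H69.IP

theorem LIP_leaf (V : Type) [Fintype V] [DecidableEq V] (β : ℝ) (c : Bool) (τ : V → Option Bool)
    (y y' : V → Bool) : lv c τ y - lv c τ y' ≤
      ∑ x ∈ univ.filter (fun x => y x ≠ y' x), (Tr.lf c τ).ms β x y := by
  classical
  have hnn : ∀ x ∈ univ.filter (fun x => y x ≠ y' x), 0 ≤ (Tr.lf c τ).ms β x y := by
    intro x _
    unfold Tr.ms lv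
    split_ifs
    · exact le_rfl
    · exact zero_le_one
    · exact le_rfl
  have h0 : 0 ≤ lv c τ y' := by
    unfold lv
    split_ifs
    · exact zero_le_one
    · exact le_rfl
  by_cases hb : c = true ∧ ∀ v b, τ v = some b → y v = b
  · have h1 : lv c τ y = 1 := by
      unfold lv
      rw [if_pos hb]
    by_cases hb' : c = true ∧ ∀ v b, τ v = some b → y' v = b
    · have h2 : lv c τ y' = 1 := by
        unfold lv
        rw [if_pos hb']
      have := sum_nonneg hnn
      linarith
    · have h3 : ∃ v b, τ v = some b ∧ y' v ≠ b := by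
        by_contra hcon
        push Not at hcon
        exact hb' ⟨hb.1, hcon⟩
      obtain ⟨v, b, hv, hne⟩ := h3
      have hz : v ∈ univ.filter (fun x => y x ≠ y' x) := by
        rw [mem_filter]
        refine ⟨mem_univ _, fun h => hne ?_⟩
        rw [← h]
        exact hb.2 v b hv
      have h2 : (Tr.lf c τ).ms β v y = 1 := by
        unfold Tr.ms
        rw [if_neg (by rw [hv]; exact Option.some_ne_none b), h1]
      have h4 := single_le_sum hnn hz
      linarith
  · have h1 : lv c τ y = 0 := by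
      unfold lv
      rw [if_neg hb]
    have := sum_nonneg hnn
    linarith

theorem pf_LIP (hSMA : T_SMA) : T_LIP := by
  intro V _ _ β t y y' hβ
  induction t with
  | lf c τ =>
    unfold Tr.sv
    exact LIP_leaf V β c τ y y'
  | av l r ihl ihr =>
    have h1 : ∑ x ∈ univ.filter (fun x => y x ≠ y' x), (Tr.av l r).ms β x y =
        ((∑ x ∈ univ.filter (fun x => y x ≠ y' x), l.ms β x y) +
          ∑ x ∈ univ.filter (fun x => y x ≠ y' x), r.ms β x y) / 2 := by
      rw [← sum_add_distrib, sum_div]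
      exact sum_congr rfl fun x _ => by rw [Tr.ms]
    rw [h1]
    unfold Tr.sv
    linarith
  | ch l r ihl ihr =>
    have h1 : ∑ x ∈ univ.filter (fun x => y x ≠ y' x), (Tr.ch l r).ms β x y =
        gw β (l.sv β y) (r.sv β y) * (∑ x ∈ univ.filter (fun x => y x ≠ y' x), l.ms β x y) +
          gw β (r.sv β y) (l.sv β y) *
            ∑ x ∈ univ.filter (fun x => y x ≠ y' x), r.ms β x y := by
      rw [mul_sum, mul_sum, ← sum_add_distrib]
      exact sum_congr rfl fun x _ => by rw [Tr.ms]
    have hsv : ∀ y, (Tr.ch l r).sv β y = smx β (l.sv β y) (r.sv β y) := fun y => by rw [Tr.sv]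
    rw [h1, hsv, hsv]
    have h2 := (hSMA β hβ (l.sv β y) (r.sv β y)).2.2.2.2 (l.sv β y') (r.sv β y')
    have h3 := mul_le_mul_of_nonneg_left ihl (hSMA β hβ (l.sv β y) (r.sv β y)).2.1.1.le
    have h4 := mul_le_mul_of_nonneg_left ihr (hSMA β hβ (r.sv β y) (l.sv β y)).2.1.1.le
    linarith

end Pool.Agent.H69.IP
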