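import Pool.Agent.H69.IP.Core

/-!
MP_0f8dca_lc, interactive proofs: rows CVX and SUM, basic facts on the soft maximum
-/

set_option autoImplicit false

namespace Pool.Agent.H69.IP

open Finset

/-! ### The soft maximum -/

theorem gm_nonneg {β : ℝ} (hβ : 0 ≤ β) (ch : Bool) : 0 ≤ gm β ch := by
  unfold gm
  split_ifs
  · exact hβ
  · exact le_rfl

theorem gm_le {β : ℝ} (hβ : 0 ≤ β) (ch : Bool) : gm β ch ≤ β := by
  unfold gm
  split_ifs
  · exact le_rfl
  · exact hβ

section soft

variable {m : ℕ} {γ : ℝ} {w : Fin m → ℝ}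

theorem sum_pos_exp (hw : ∀ i, 0 ≤ w i) (h1 : ∑ i, w i = 1) (g : Fin m → ℝ) :
    0 < ∑ i, w i * Real.exp (γ * g i) := by
  have h0 : ∀ i ∈ (univ : Finset (Fin m)), 0 ≤ w i * Real.exp (γ * g i) := fun i _ =>
    mul_nonneg (hw i) (Real.exp_pos _).le
  refine lt_of_le_of_ne (sum_nonneg h0) fun h => ?_
  have h2 := (sum_eq_zero_iff_of_nonneg h0).1 h.symm
  have h3 : ∀ i, w i = 0 := fun i => by
    rcases mul_eq_zero.1 (h2 i (mem_univ i)) with h | h
    · exact h
    · exact absurd h (Real.exp_pos _).ne'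
  rw [sum_congr rfl fun i _ => h3 i, sum_const_zero] at h1
  exact zero_ne_one h1

/-- The exponential of the soft maximum. -/
theorem exp_sm (hw : ∀ i, 0 ≤ w i) (h1 : ∑ i, w i = 1) (g : Fin m → ℝ) :
    Real.exp (γ * sm γ w g) = ∑ i, w i * Real.exp (γ * g i) := by
  unfold sm
  split_ifs with h
  · rw [h]
    simp [h1]
  · rw [← mul_assoc, mul_inv_cancel₀ h, one_mul, Real.exp_log (sum_pos_exp hw h1 g)]

theorem gb_nonneg (hw : ∀ i, 0 ≤ w i) (g : Fin m → ℝ) (i : Fin m) : 0 ≤ gb γ w g i :=
  mul_nonneg (hw i) (Real.exp_pos _).le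

theorem gb_sum (hw : ∀ i, 0 ≤ w i) (h1 : ∑ i, w i = 1) (g : Fin m → ℝ) :
    ∑ i, gb γ w g i = 1 := by
  have h2 : ∀ i, gb γ w g i = Real.exp (-(γ * sm γ w g)) * (w i * Real.exp (γ * g i)) := by
    intro i
    unfold gb
    rw [mul_sub, sub_eq_add_neg, Real.exp_add]
    ring
  rw [sum_congr rfl fun i _ => h2 i, ← mul_sum, ← exp_sm hw h1, ← Real.exp_add,
    neg_add_cancel, Real.exp_zero]

/-- The soft maximum is convex: the tangent at `g`. -/
theorem sm_convex (hγ : 0 ≤ γ) (hw : ∀ i, 0 ≤ w i) (h1 : ∑ i, w i = 1) (g g' : Fin m → ℝ) :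
    sm γ w g - sm γ w g' ≤ ∑ i, gb γ w g i * (g i - g' i) := by
  rcases hγ.eq_or_lt with h | h
  · have h2 : ∀ i, gb γ w g i = w i := by
      intro i
      unfold gb
      rw [← h, zero_mul, Real.exp_zero, mul_one]
    rw [sum_congr rfl fun i _ => by rw [h2 i]]
    unfold sm
    rw [if_pos h.symm, if_pos h.symm, ← sum_sub_distrib]
    exact le_of_eq (sum_congr rfl fun i _ => by ring)
  · have hs := gb_sum (γ := γ) hw h1 g
    set u : Fin m → ℝ := fun i => γ * (g' i - g i) with hu
    set c : ℝ := ∑ i, gb γ w g i * u i with hc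
    have h3 : Real.exp (γ * (sm γ w g' - sm γ w g)) = ∑ i, gb γ w g i * Real.exp (u i) := by
      rw [mul_sub, sub_eq_add_neg, Real.exp_add, exp_sm hw h1 g', sum_mul]
      refine sum_congr rfl fun i _ => ?_
      unfold gb
      rw [mul_assoc, mul_assoc, ← Real.exp_add, ← Real.exp_add]
      congr 2
      rw [hu]
      ring
    have h4 : Real.exp c ≤ ∑ i, gb γ w g i * Real.exp (u i) := by
      have h5 : ∀ i ∈ (univ : Finset (Fin m)), gb γ w g i * (Real.exp c * (1 + u i - c)) ≤
          gb γ w g i * Real.exp (u i) := by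
        intro i _
        refine mul_le_mul_of_nonneg_left ?_ (gb_nonneg hw g i)
        have h6 : u i - c + 1 ≤ Real.exp (u i - c) := Real.add_one_le_exp _
        have h7 : Real.exp (u i) = Real.exp c * Real.exp (u i - c) := by
          rw [← Real.exp_add]
          congr 1
          ring
        rw [h7]
        refine mul_le_mul_of_nonneg_left ?_ (Real.exp_pos _).le
        linarith
      refine le_trans (le_of_eq ?_) (sum_le_sum h5)
      have h8 : ∀ i, gb γ w g i * (Real.exp c * (1 + u i - c)) =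
          Real.exp c * (gb γ w g i * u i) + Real.exp c * (1 - c) * gb γ w g i := by
        intro i
        ring
      rw [sum_congr rfl fun i _ => h8 i, sum_add_distrib, ← mul_sum, ← mul_sum, hs, ← hc]
      ring
    rw [← h3] at h4
    have h9 : c ≤ γ * (sm γ w g' - sm γ w g) := Real.exp_le_exp.1 h4
    have h10 : c = -(γ * ∑ i, gb γ w g i * (g i - g' i)) := by
      rw [hc, mul_sum, ← sum_neg_distrib]
      refine sum_congr rfl fun i _ => ?_
      rw [hu]
      ring
    rw [h10] at h9
    have h11 : γ * (sm γ w g - sm γ w g') ≤ γ * ∑ i, gb γ w g i * (g i - g' i) := by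
      linarith
    exact le_of_mul_le_mul_left h11 h

theorem sm_const (hw : ∀ i, 0 ≤ w i) (h1 : ∑ i, w i = 1) (c : ℝ) :
    sm γ w (fun _ => c) = c := by
  unfold sm
  split_ifs with h
  · rw [← sum_mul, h1, one_mul]
  · rw [← sum_mul, h1, one_mul, Real.log_exp, ← mul_assoc, inv_mul_cancel₀ h, one_mul]

theorem sm_mono (hγ : 0 ≤ γ) (hw : ∀ i, 0 ≤ w i) (h1 : ∑ i, w i = 1) {g g' : Fin m → ℝ}
    (h : ∀ i, g i ≤ g' i) : sm γ w g ≤ sm γ w g' := by
  have h2 := sm_convex hγ hw h1 g g'
  have h3 : ∑ i, gb γ w g i * (g i - g' i) ≤ 0 :=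
    sum_nonpos fun i _ => mul_nonpos_of_nonneg_of_nonpos (gb_nonneg hw g i)
      (sub_nonpos.2 (h i))
  linarith

end soft

section

variable {V : Type} [DecidableEq V] {β : ℝ}

theorem pr_nonneg {m : ℕ} {w : Fin m → ℝ} (hw : ∀ i, 0 ≤ w i) (ch : Bool) (c : Fin m → GT V)
    (b : V → Bool) (i : Fin m) : 0 ≤ pr β ch w c b i := gb_nonneg hw _ i

theorem pr_sum {m : ℕ} {w : Fin m → ℝ} (hw : ∀ i, 0 ≤ w i) (h1 : ∑ i, w i = 1) (ch : Bool)
    (c : Fin m → GT V) (b : V → Bool) : ∑ i, pr β ch w c b i = 1 := gb_sum hw h1 _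

theorem avg_le {m : ℕ} {w : Fin m → ℝ} (hw : ∀ i, 0 ≤ w i) (h1 : ∑ i, w i = 1) (ch : Bool)
    (c : Fin m → GT V) (b : V → Bool) {f : Fin m → ℝ} {C : ℝ} (hf : ∀ i, f i ≤ C) :
    ∑ i, pr β ch w c b i * f i ≤ C := by
  refine (sum_le_sum fun i _ => mul_le_mul_of_nonneg_left (hf i)
    (pr_nonneg (β := β) hw ch c b i)).trans ?_
  rw [← sum_mul, pr_sum hw h1, one_mul]

theorem val_mem (hβ : 0 ≤ β) {q : ℕ} (t : GT V) : ∀ d, Ok q t d → ∀ b : V → Bool,
    0 ≤ val β t b ∧ val β t b ≤ 1 := by
  induction t with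
  | leaf T =>
    intro d _ b
    unfold val
    split_ifs
    · exact ⟨zero_le_one, le_rfl⟩
    · exact ⟨le_rfl, zero_le_one⟩
  | node ch m w c ih =>
    intro d h b
    unfold Ok at h
    obtain ⟨_, hw, h1, hc⟩ := h
    unfold val
    constructor
    · have := sm_mono (gm_nonneg hβ ch) hw h1 (g := fun _ => (0 : ℝ))
        (g' := fun i => val β (c i) b) fun i => (ih i _ (hc i) b).1
      rwa [sm_const hw h1] at this
    · have := sm_mono (gm_nonneg hβ ch) hw h1 (g' := fun _ => (1 : ℝ))
        (g := fun i => val β (c i) b) fun i => (ih i _ (hc i) b).2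
      rwa [sm_const hw h1] at this

theorem AA_mem (x : V) {q : ℕ} (t : GT V) : ∀ d, Ok q t d → ∀ b : V → Bool,
    0 ≤ AA β x t b ∧ AA β x t b ≤ 1 := by
  induction t with
  | leaf T =>
    intro d _ b
    unfold AA
    split_ifs
    · exact ⟨zero_le_one, le_rfl⟩
    · exact ⟨le_rfl, zero_le_one⟩
  | node ch m w c ih =>
    intro d h b
    unfold Ok at h
    obtain ⟨_, hw, h1, hc⟩ := h
    unfold AA
    exact ⟨sum_nonneg fun i _ => mul_nonneg (pr_nonneg hw ch c b i) (ih i _ (hc i) b).1,
      avg_le hw h1 ch c b fun i => (ih i _ (hc i) b).2⟩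

theorem own_nonneg (x y : V) {q d : ℕ} {t : GT V} (h : Ok q t d) (b : V → Bool) :
    0 ≤ own β x y t b := by
  have hx := fun b => (AA_mem (β := β) x t d h b).1
  have hy := fun b => (AA_mem (β := β) y t d h b).1
  unfold own
  exact add_nonneg (mul_nonneg (hx _) (add_nonneg (hy _) (hy _)))
    (mul_nonneg (hy _) (add_nonneg (hx _) (hx _)))

theorem RR_nonneg (x y : V) {q : ℕ} (t : GT V) : ∀ d, Ok q t d → ∀ b : V → Bool,
    0 ≤ RR β x y t b := by
  induction t with
  | leaf T =>
    intro d h b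
    unfold RR
    exact own_nonneg x y h b
  | node ch m w c ih =>
    intro d h b
    have h0 := own_nonneg (β := β) x y h b
    unfold Ok at h
    obtain ⟨_, hw, h1, hc⟩ := h
    unfold RR
    exact add_nonneg h0 (sum_nonneg fun i _ =>
      mul_nonneg (pr_nonneg hw ch c b i) (ih i _ (hc i) b))

theorem own_le_RR (x y : V) {q d : ℕ} {t : GT V} (h : Ok q t d) (b : V → Bool) :
    own β x y t b ≤ RR β x y t b := by
  cases t with
  | leaf T =>
    unfold RR
    exact le_rfl
  | node ch m w c =>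
    unfold Ok at h
    obtain ⟨_, hw, h1, hc⟩ := h
    unfold RR
    have := sum_nonneg fun i (_ : i ∈ (univ : Finset (Fin m))) =>
      mul_nonneg (pr_nonneg (β := β) hw ch c b i) (RR_nonneg (β := β) x y (c i) _ (hc i) b)
    linarith

end

theorem pf_CVX : T_CVX := by
  intro V _ _ β q d t hβ
  revert d
  induction t with
  | leaf T =>
    intro d _ b b'
    classical
    have hnn : ∀ z ∈ univ.filter (fun z => b z ≠ b' z), 0 ≤ AA β z (.leaf T) b := by
      intro z _
      unfold AA
      split_ifs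
      · exact zero_le_one
      · exact le_rfl
    by_cases hb : Tr T b
    · by_cases hb' : Tr T b'
      · have : val β (.leaf T) b - val β (.leaf T) b' = 0 := by
          unfold val
          rw [if_pos hb, if_pos hb', sub_self]
        rw [this]
        exact sum_nonneg hnn
      · have h1 : val β (.leaf T) b - val β (.leaf T) b' = 1 := by
          unfold val
          rw [if_pos hb, if_neg hb', sub_zero]
        rw [h1]
        unfold Tr at hb'
        push Not at hb'
        obtain ⟨l, hl, hne⟩ := hb'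
        have hz : l.1 ∈ univ.filter (fun z => b z ≠ b' z) := by
          rw [mem_filter]
          refine ⟨mem_univ _, fun h => hne ?_⟩
          rw [← h]
          exact hb l hl
        have h2 : AA β l.1 (.leaf T) b = 1 := by
          unfold AA
          rw [if_pos ⟨hb, l, hl, rfl⟩]
        rw [← h2]
        exact single_le_sum hnn hz
    · have h1 : val β (.leaf T) b = 0 := by
        unfold val
        rw [if_neg hb]
      have h2 : 0 ≤ val β (.leaf T) b' := by
        unfold val
        split_ifs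
        · exact zero_le_one
        · exact le_rfl
      have := sum_nonneg hnn
      linarith
  | node ch m w c ih =>
    intro d h b b'
    unfold Ok at h
    obtain ⟨_, hw, h1, hc⟩ := h
    have h2 := sm_convex (gm_nonneg hβ ch) hw h1 (fun i => val β (c i) b) fun i => val β (c i) b'
    have h3 : ∑ i, gb (gm β ch) w (fun i => val β (c i) b) i *
        (val β (c i) b - val β (c i) b') ≤
        ∑ i, pr β ch w c b i * ∑ z ∈ univ.filter (fun z => b z ≠ b' z), AA β z (c i) b :=
      sum_le_sum fun i _ => mul_le_mul_of_nonneg_left (ih i _ (hc i) b b')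
        (pr_nonneg hw ch c b i)
    have h4 : ∑ i, pr β ch w c b i * ∑ z ∈ univ.filter (fun z => b z ≠ b' z), AA β z (c i) b =
        ∑ z ∈ univ.filter (fun z => b z ≠ b' z), AA β z (.node ch m w c) b := by
      simp_rw [mul_sum]
      rw [sum_comm]
      refine sum_congr rfl fun z _ => ?_
      rw [AA]
    unfold val
    linarith

theorem sum_AA {V : Type} [Fintype V] [DecidableEq V] {β : ℝ} {q : ℕ} (t : GT V) :
    ∀ d, Ok q t d → ∀ b : V → Bool, ∑ x, AA β x t b ≤ q := by
  induction t with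
  | leaf T =>
    intro d h b
    classical
    unfold Ok at h
    have h1 : ∀ x, AA β x (.leaf T) b ≤ if x ∈ T.image Prod.fst then 1 else 0 := by
      intro x
      unfold AA
      split_ifs with h2 h3 h3
      · exact le_rfl
      · obtain ⟨_, l, hl, hlx⟩ := h2
        exact absurd (mem_image.2 ⟨l, hl, hlx⟩) h3
      · exact zero_le_one
      · exact le_rfl
    refine (sum_le_sum fun x _ => h1 x).trans ?_
    rw [sum_ite_mem, univ_inter, sum_const, nsmul_eq_mul, mul_one]
    exact_mod_cast card_image_le.trans h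
  | node ch m w c ih =>
    intro d h b
    unfold Ok at h
    obtain ⟨_, hw, h1, hc⟩ := h
    have h2 : ∑ x, AA β x (.node ch m w c) b = ∑ i, pr β ch w c b i * ∑ x, AA β x (c i) b := by
      simp_rw [mul_sum]
      rw [sum_comm]
      refine sum_congr rfl fun z _ => ?_
      rw [AA]
    rw [h2]
    exact avg_le hw h1 ch c b fun i => ih i _ (hc i) b

theorem sum_own {V : Type} [Fintype V] [DecidableEq V] {β : ℝ} {q d : ℕ} {t : GT V}
    (h : Ok q t d) (b : V → Bool) : ∑ x, ∑ y, own β x y t b ≤ 4 * (q : ℝ) ^ 2 := by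
  have hA := fun b => sum_AA (β := β) t d h b
  have h0 := fun x b => (AA_mem (β := β) x t d h b).1
  have hq : (0 : ℝ) ≤ q := Nat.cast_nonneg q
  have key : ∀ B : V → (V → Bool), ∑ x, AA β x t b * ∑ y, AA β y t (B x) ≤ (q : ℝ) ^ 2 := by
    intro B
    calc ∑ x, AA β x t b * ∑ y, AA β y t (B x)
        ≤ ∑ x, AA β x t b * (q : ℝ) :=
          sum_le_sum fun x _ => mul_le_mul_of_nonneg_left (hA _) (h0 x b)
      _ = (∑ x, AA β x t b) * q := by rw [sum_mul]
      _ ≤ q * q := mul_le_mul_of_nonneg_right (hA b) hq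
      _ = (q : ℝ) ^ 2 := by ring
  have h1 : ∑ x, ∑ y, own β x y t b =
      (∑ x, AA β x t b * ∑ y, AA β y t b) + (∑ x, AA β x t b * ∑ y, AA β y t (fl x b)) +
      ((∑ y, AA β y t b * ∑ x, AA β x t b) + ∑ y, AA β y t b * ∑ x, AA β x t (fl y b)) := by
    have h2 : ∀ x y, own β x y t b = (AA β x t b * AA β y t b + AA β x t b * AA β y t (fl x b)) +
        (AA β y t b * AA β x t b + AA β y t b * AA β x t (fl y b)) := by
      intro x y
      unfold own
      ring
    simp_rw [h2, sum_add_distrib, mul_sum]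
    rw [sum_comm (f := fun x y => AA β y t b * AA β x t b),
      sum_comm (f := fun x y => AA β y t b * AA β x t (fl y b))]
  rw [h1]
  have k1 := key fun _ => b
  have k2 := key fun x => fl x b
  linarith

theorem sum_RR {V : Type} [Fintype V] [DecidableEq V] {β : ℝ} {q : ℕ} (t : GT V) :
    ∀ d, Ok q t d → ∀ b : V → Bool, ∑ x, ∑ y, RR β x y t b ≤ (d + 1) * (4 * (q : ℝ) ^ 2) := by
  induction t with
  | leaf T =>
    intro d h b
    have h1 := sum_own (β := β) h b
    have h2 : ∑ x, ∑ y, RR β x y (.leaf T) b = ∑ x, ∑ y, own β x y (.leaf T) b :=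
      sum_congr rfl fun x _ => sum_congr rfl fun y _ => by rw [RR]
    rw [h2]
    refine h1.trans ?_
    have h3 : (0 : ℝ) ≤ d := Nat.cast_nonneg d
    have h4 : (0 : ℝ) ≤ 4 * (q : ℝ) ^ 2 := by positivity
    nlinarith
  | node ch m w c ih =>
    intro d h b
    have h1 := sum_own (β := β) h b
    unfold Ok at h
    obtain ⟨hd, hw, h2, hc⟩ := h
    have h3 : ∑ x, ∑ y, RR β x y (.node ch m w c) b = ∑ x, ∑ y, own β x y (.node ch m w c) b +
        ∑ i, pr β ch w c b i * ∑ x, ∑ y, RR β x y (c i) b := by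
      have h4 : ∀ x y, RR β x y (.node ch m w c) b = own β x y (.node ch m w c) b +
          ∑ i, pr β ch w c b i * RR β x y (c i) b := fun x y => by rw [RR]
      simp_rw [h4, sum_add_distrib, mul_sum]
      congr 1
      rw [sum_congr rfl fun x _ => sum_comm, sum_comm]
    rw [h3]
    have h5 : ∑ i, pr β ch w c b i * ∑ x, ∑ y, RR β x y (c i) b ≤
        ((d - 1 : ℕ) + 1) * (4 * (q : ℝ) ^ 2) := avg_le hw h2 ch c b fun i => ih i _ (hc i) b
    have h6 : (((d - 1 : ℕ) : ℝ) + 1) = d := by
      have : d - 1 + 1 = d := by omega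
      exact_mod_cast this
    rw [h6] at h5
    linarith

theorem pf_SUM : T_SUM := by
  intro V _ _ β q d t hβ h b
  exact ⟨val_mem hβ t d h b, fun x => AA_mem x t d h b,
    fun x y => ⟨own_nonneg x y h b, own_le_RR x y h b⟩, sum_AA t d h b, sum_RR t d h b⟩

end Pool.Agent.H69.IP
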