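import Mathlib

/-!
MP_0f8dca_lc, interactive proofs: the analytic core (definitions and targets).

A game tree over the variables `V`: a leaf is a term (a set of literals), a node is an average node
(`ch = false`) or a choice node (`ch = true`) with weights `w`. In `val β` the maximum at a choice
node is replaced by `β⁻¹ log ∑ w exp (β G)`.
-/

set_option autoImplicit false

namespace Pool.Agent.H69.IP

open Finset

/-- Game trees. -/
inductive GT (V : Type) : Type
  | leaf (T : Finset (V × Bool)) : GT V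
  | node (ch : Bool) (m : ℕ) (w : Fin m → ℝ) (c : Fin m → GT V) : GT V

/-- The parameter of a node: `β` at choice nodes, `0` at average nodes. -/
def gm (β : ℝ) (ch : Bool) : ℝ := if ch then β else 0

/-- Soft maximum with the parameter `γ` (average for `γ = 0`). -/
noncomputable def sm (γ : ℝ) {m : ℕ} (w g : Fin m → ℝ) : ℝ :=
  if γ = 0 then ∑ i, w i * g i else γ⁻¹ * Real.log (∑ i, w i * Real.exp (γ * g i))

/-- The Gibbs weights. -/
noncomputable def gb (γ : ℝ) {m : ℕ} (w g : Fin m → ℝ) (i : Fin m) : ℝ :=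
  w i * Real.exp (γ * (g i - sm γ w g))

section

variable {V : Type} [DecidableEq V]

/-- The term is true. -/
def Tr (T : Finset (V × Bool)) (b : V → Bool) : Prop := ∀ l ∈ T, b l.1 = l.2

open Classical in
/-- The value of the game. -/
noncomputable def val (β : ℝ) : GT V → (V → Bool) → ℝ
  | .leaf T, b => if Tr T b then 1 else 0
  | .node ch _ w c, b => sm (gm β ch) w fun i => val β (c i) b

/-- The Gibbs weights of a node. -/
noncomputable def pr (β : ℝ) (ch : Bool) {m : ℕ} (w : Fin m → ℝ) (c : Fin m → GT V)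
    (b : V → Bool) (i : Fin m) : ℝ :=
  gb (gm β ch) w (fun i => val β (c i) b) i

open Classical in
/-- The probability that the leaf is true at `b` and that `x` occurs in it. -/
noncomputable def AA (β : ℝ) (x : V) : GT V → (V → Bool) → ℝ
  | .leaf T, b => if Tr T b ∧ ∃ l ∈ T, l.1 = x then 1 else 0
  | .node ch _ w c, b => ∑ i, pr β ch w c b i * AA β x (c i) b

/-- Flip the bit `x`. -/
def fl (x : V) (b : V → Bool) : V → Bool := Function.update b x (!b x)

/-- The cost of the node itself. -/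
noncomputable def own (β : ℝ) (x y : V) (t : GT V) (b : V → Bool) : ℝ :=
  AA β x t b * (AA β y t b + AA β y t (fl x b)) + AA β y t b * (AA β x t b + AA β x t (fl y b))

/-- The total cost. -/
noncomputable def RR (β : ℝ) (x y : V) : GT V → (V → Bool) → ℝ
  | .leaf T, b => own β x y (.leaf T) b
  | .node ch m w c, b => own β x y (.node ch m w c) b + ∑ i, pr β ch w c b i * RR β x y (c i) b

/-- The terms have at most `q` literals, the depth is at most `d`, the weights are probabilities. -/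
def Ok (q : ℕ) : GT V → ℕ → Prop
  | .leaf T, _ => T.card ≤ q
  | .node _ _ w c, d => 0 < d ∧ (∀ i, 0 ≤ w i) ∧ ∑ i, w i = 1 ∧ ∀ i, Ok q (c i) (d - 1)

/-- The mixed difference. -/
noncomputable def DD (x y : V) (F : (V → Bool) → ℝ) (b : V → Bool) : ℝ :=
  F b - F (fl x b) - F (fl y b) + F (fl x (fl y b))

end

/-! ## Targets -/

/-- CVX (1): convexity. -/
def T_CVX : Prop := ∀ (V : Type) [Fintype V] [DecidableEq V] (β : ℝ) (q d : ℕ) (t : GT V),
  0 ≤ β → Ok q t d → ∀ b b' : V → Bool,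
    val β t b - val β t b' ≤ ∑ z ∈ univ.filter (fun z => b z ≠ b' z), AA β z t b

/-- SUM (2): sizes. -/
def T_SUM : Prop := ∀ (V : Type) [Fintype V] [DecidableEq V] (β : ℝ) (q d : ℕ) (t : GT V),
  0 ≤ β → Ok q t d → ∀ b : V → Bool,
    (0 ≤ val β t b ∧ val β t b ≤ 1) ∧ (∀ x, 0 ≤ AA β x t b ∧ AA β x t b ≤ 1) ∧
    (∀ x y, 0 ≤ own β x y t b ∧ own β x y t b ≤ RR β x y t b) ∧
    ∑ x, AA β x t b ≤ q ∧
    ∑ x, ∑ y, RR β x y t b ≤ (d + 1) * (4 * q ^ 2)

/-- TRN (3): transport. -/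
def T_TRN : Prop := ∀ (V : Type) [Fintype V] [DecidableEq V] (β θ : ℝ) (q d : ℕ) (t : GT V),
  0 ≤ β → 0 < θ → θ ≤ 1 → Ok q t d → ∀ x y : V, x ≠ y → ∀ b : V → Bool,
    AA β y t b ≤ Real.exp (2 * β * θ * d) *
      (AA β y t (fl x b) + (RR β x y t b + RR β x y t (fl x b)) / θ)

/-- The cost of a corner. -/
def oc (X Y : Bool → Bool → ℝ) (i j : Bool) : ℝ :=
  X i j * (Y i j + Y (!i) j) + Y i j * (X i j + X i (!j))

/-- The hypotheses of the square lemmas; the first index is the bit `x`, the second the bit `y`. -/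
structure SqH (g X Y : Bool → Bool → ℝ) : Prop where
  X0 : ∀ i j, 0 ≤ X i j
  Y0 : ∀ i j, 0 ≤ Y i j
  hx : ∀ i j, g i j - g (!i) j ≤ X i j
  hy : ∀ i j, g i j - g i (!j) ≤ Y i j
  hxy : ∀ i j, g i j - g (!i) (!j) ≤ X i j + Y i j

/-- SQA (4a): the product of an edge difference in the direction `x` and one in the direction `y`. -/
def T_SQA : Prop := ∀ g X Y : Bool → Bool → ℝ, SqH g X Y → ∀ j i : Bool,
  |g true j - g false j| * |g i true - g i false| ≤ 2 * ∑ a, ∑ b, oc X Y a b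

/-- SQB (4b): large variation. `T` is the set of the corners which are at most `2 θ` below the
maximum. -/
def T_SQB : Prop := ∀ (g X Y : Bool → Bool → ℝ) (θ : ℝ), SqH g X Y → 0 < θ → θ ≤ 1 →
  (∃ a b a' b', g a b - g a' b' ≥ 4 * θ) → ∃ O : ℝ,
    (∃ a b, O = oc X Y a b ∧ ∀ a' b', g a' b' - 2 * θ ≤ g a b) ∧
    ((∀ a b, X a b ≤ O / θ ^ 2) ∨ (∀ a b, Y a b ≤ O / θ ^ 2)) ∧
    ((∀ a b, X a b ≤ O / θ ^ 2) ∨ ∃ a b, θ ≤ X a b ∧ ∀ a' b', g a' b' ≤ g a b) ∧
    ((∀ a b, Y a b ≤ O / θ ^ 2) ∨ ∃ a b, θ ≤ Y a b ∧ ∀ a' b', g a' b' ≤ g a b)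

/-- DDX (5): the mixed difference of the value of a game. -/
def T_DDX : Prop := ∃ K : ℝ, 0 < K ∧
  ∀ (V : Type) [Fintype V] [DecidableEq V] (β : ℝ) (q d : ℕ) (t : GT V),
  1 ≤ β → 1 ≤ d → Ok q t d → ∀ x y : V, x ≠ y → ∀ b : V → Bool,
    |DD x y (val β t) b| ≤ K * β ^ 3 * d ^ 3 * (RR β x y t b + RR β x y t (fl x b) +
      RR β x y t (fl y b) + RR β x y t (fl x (fl y b)))

end Pool.Agent.H69.IP
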