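import Pool.Agent.H69.IP.CVX

/-!
MP_0f8dca_lc, interactive proofs: row TRN (transport of `A_y` along a flip of `x`)
-/

set_option autoImplicit false

namespace Pool.Agent.H69.IP

open Finset

section

variable {V : Type} [Fintype V] [DecidableEq V] {β θ : ℝ} {q : ℕ}

theorem fl_fl (x : V) (b : V → Bool) : fl x (fl x b) = b := by
  funext z
  unfold fl
  by_cases h : z = x
  · subst h
    simp
  · simp [h]

theorem fl_comm {x y : V} (h : x ≠ y) (b : V → Bool) : fl x (fl y b) = fl y (fl x b) := by
  funext z
  unfold fl
  by_cases hx : z = x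
  · subst hx
    simp [h]
  · by_cases hy : z = y
    · subst hy
      simp [hx]
    · simp [hx, hy]

theorem diff_fl (x : V) (b : V → Bool) : univ.filter (fun z => b z ≠ fl x b z) = {x} := by
  ext z
  rw [mem_filter, mem_singleton]
  unfold fl
  by_cases h : z = x
  · subst h
    simp
  · simp [h]

/-- The difference along one bit. -/
theorem sub_fl (hβ : 0 ≤ β) {t : GT V} {d : ℕ} (h : Ok q t d) (x : V) (b : V → Bool) :
    val β t b - val β t (fl x b) ≤ AA β x t b := by
  have h1 := pf_CVX V β q d t hβ h b (fl x b)
  rwa [diff_fl, sum_singleton] at h1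

theorem sub_fl' (hβ : 0 ≤ β) {t : GT V} {d : ℕ} (h : Ok q t d) (x : V) (b : V → Bool) :
    val β t (fl x b) - val β t b ≤ AA β x t (fl x b) := by
  have h1 := sub_fl hβ h x (fl x b)
  rwa [fl_fl] at h1

theorem mul_le_own (x y : V) {t : GT V} {d : ℕ} (h : Ok q t d) (b : V → Bool) :
    AA β x t b * AA β y t b ≤ own β x y t b := by
  have hx := fun b => (AA_mem (β := β) x t d h b).1
  have hy := fun b => (AA_mem (β := β) y t d h b).1
  have h1 := mul_nonneg (hx b) (hy (fl x b))
  have h2 := mul_nonneg (hy b) (add_nonneg (hx b) (hx (fl y b)))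
  unfold own
  rw [mul_add]
  linarith

theorem mul_le_own' (x y : V) {t : GT V} {d : ℕ} (h : Ok q t d) (b : V → Bool) :
    AA β x t (fl x b) * AA β y t b ≤ own β x y t (fl x b) := by
  have hx := fun b => (AA_mem (β := β) x t d h b).1
  have hy := fun b => (AA_mem (β := β) y t d h b).1
  have h1 := mul_nonneg (hx (fl x b)) (hy (fl x b))
  have h2 := mul_nonneg (hy (fl x b)) (add_nonneg (hx (fl x b)) (hx (fl y (fl x b))))
  unfold own
  rw [mul_add, fl_fl]
  linarith

/-- Large difference: `A_y` is bounded by the cost of the node. -/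
theorem big (hβ : 0 ≤ β) (hθ : 0 < θ) {t : GT V} {d : ℕ} (h : Ok q t d) (x y : V) (b : V → Bool)
    (hb : θ ≤ val β t b - val β t (fl x b)) : AA β y t b ≤ RR β x y t b / θ := by
  rw [le_div_iff₀ hθ]
  have h1 := sub_fl hβ h x b
  have h2 := mul_le_own (β := β) x y h b
  have h3 := own_le_RR (β := β) x y h b
  have h4 := (AA_mem (β := β) y t d h b).1
  nlinarith

theorem big' (hβ : 0 ≤ β) (hθ : 0 < θ) {t : GT V} {d : ℕ} (h : Ok q t d) (x y : V) (b : V → Bool)
    (hb : θ ≤ val β t (fl x b) - val β t b) : AA β y t b ≤ RR β x y t (fl x b) / θ := by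
  rw [le_div_iff₀ hθ]
  have h1 := sub_fl' hβ h x b
  have h2 := mul_le_own' (β := β) x y h b
  have h3 := own_le_RR (β := β) x y h (fl x b)
  have h4 := (AA_mem (β := β) y t d h b).1
  nlinarith

end

theorem pf_TRN : T_TRN := by
  intro V _ _ β θ q d t hβ hθ hθ1 h x y hxy
  revert d
  induction t with
  | leaf T =>
    intro d h b
    classical
    have hE : 1 ≤ Real.exp (2 * β * θ * d) := Real.one_le_exp (by positivity)
    have hA := (AA_mem (β := β) y (.leaf T) d h (fl x b)).1
    have hR1 := RR_nonneg (β := β) x y (.leaf T) d h b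
    have hR2 := RR_nonneg (β := β) x y (.leaf T) d h (fl x b)
    have hRt : 0 ≤ (RR β x y (.leaf T) b + RR β x y (.leaf T) (fl x b)) / θ :=
      div_nonneg (add_nonneg hR1 hR2) hθ.le
    have key : AA β y (.leaf T) b ≤
        AA β y (.leaf T) (fl x b) + (RR β x y (.leaf T) b + RR β x y (.leaf T) (fl x b)) / θ := by
      by_cases hy : Tr T b ∧ ∃ l ∈ T, l.1 = y
      · have h1 : AA β y (.leaf T) b = 1 := by
          unfold AA
          rw [if_pos hy]
        by_cases hb' : Tr T (fl x b)
        · have h2 : AA β y (.leaf T) (fl x b) = 1 := by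
            unfold AA
            rw [if_pos ⟨hb', hy.2⟩]
          rw [h1, h2]
          linarith
        · unfold Tr at hb'
          push Not at hb'
          obtain ⟨l, hl, hne⟩ := hb'
          have hlx : l.1 = x := by
            by_contra hlx
            apply hne
            unfold fl
            rw [Function.update_of_ne hlx]
            exact hy.1 l hl
          have h2 : AA β x (.leaf T) b = 1 := by
            unfold AA
            rw [if_pos ⟨hy.1, l, hl, hlx⟩]
          have h3 := mul_le_own (β := β) x y h b
          have h4 := own_le_RR (β := β) x y h b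
          rw [h1, h2, one_mul] at h3
          rw [h1]
          have h5 : 1 ≤ (RR β x y (.leaf T) b + RR β x y (.leaf T) (fl x b)) / θ := by
            rw [le_div_iff₀ hθ]
            linarith
          linarith
      · have h1 : AA β y (.leaf T) b = 0 := by
          unfold AA
          rw [if_neg hy]
        rw [h1]
        exact add_nonneg hA hRt
    exact key.trans (le_mul_of_one_le_left (add_nonneg hA hRt) hE)
  | node ch m w c ih =>
    intro d h b
    have hOk := h
    have hE : 1 ≤ Real.exp (2 * β * θ * d) := Real.one_le_exp (by positivity)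
    have hA := (AA_mem (β := β) y _ d hOk (fl x b)).1
    have hR1 := RR_nonneg (β := β) x y _ d hOk b
    have hR2 := RR_nonneg (β := β) x y _ d hOk (fl x b)
    have hD1 := div_nonneg hR1 hθ.le
    have hD2 := div_nonneg hR2 hθ.le
    by_cases c1 : θ ≤ val β (.node ch m w c) b - val β (.node ch m w c) (fl x b)
    · have h1 := big hβ hθ hOk x y b c1
      refine le_trans ?_ (le_mul_of_one_le_left (add_nonneg hA (by
        rw [add_div]; exact add_nonneg hD1 hD2)) hE)
      rw [add_div]
      linarith
    by_cases c2 : θ ≤ val β (.node ch m w c) (fl x b) - val β (.node ch m w c) b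
    · have h1 := big' hβ hθ hOk x y b c2
      refine le_trans ?_ (le_mul_of_one_le_left (add_nonneg hA (by
        rw [add_div]; exact add_nonneg hD1 hD2)) hE)
      rw [add_div]
      linarith
    push Not at c1 c2
    unfold Ok at h
    obtain ⟨hd, hw, h1, hc⟩ := h
    have hγ := gm_nonneg hβ ch
    have hγβ := gm_le hβ ch
    have hE1 : Real.exp (2 * β * θ * d) =
        Real.exp (2 * β * θ) * Real.exp (2 * β * θ * (d - 1 : ℕ)) := by
      rw [← Real.exp_add]
      congr 1
      have : ((d - 1 : ℕ) : ℝ) = d - 1 := by
        rw [Nat.cast_sub hd, Nat.cast_one]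
      rw [this]
      ring
    have hE2 : 1 ≤ Real.exp (2 * β * θ) := Real.one_le_exp (by positivity)
    have hE3 : 1 ≤ Real.exp (2 * β * θ * (d - 1 : ℕ)) := Real.one_le_exp (by positivity)
    have key : ∀ i, pr β ch w c b i * AA β y (c i) b ≤ Real.exp (2 * β * θ * d) *
        (pr β ch w c (fl x b) i * AA β y (c i) (fl x b) +
          (pr β ch w c b i * RR β x y (c i) b +
            pr β ch w c (fl x b) i * RR β x y (c i) (fl x b)) / θ) := by
      intro i
      have hp0 := pr_nonneg (β := β) hw ch c b i
      have hp1 := pr_nonneg (β := β) hw ch c (fl x b) i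
      have hAi := (AA_mem (β := β) y _ _ (hc i) (fl x b)).1
      have hAb := (AA_mem (β := β) y _ _ (hc i) b).1
      have hRi := RR_nonneg (β := β) x y _ _ (hc i) b
      have hRi' := RR_nonneg (β := β) x y _ _ (hc i) (fl x b)
      have hn1 : 0 ≤ pr β ch w c (fl x b) i * AA β y (c i) (fl x b) := mul_nonneg hp1 hAi
      have hn2 : 0 ≤ pr β ch w c b i * RR β x y (c i) b / θ :=
        div_nonneg (mul_nonneg hp0 hRi) hθ.le
      have hn3 : 0 ≤ pr β ch w c (fl x b) i * RR β x y (c i) (fl x b) / θ :=
        div_nonneg (mul_nonneg hp1 hRi') hθ.le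
      by_cases e1 : θ ≤ val β (c i) b - val β (c i) (fl x b)
      · have h2 := mul_le_mul_of_nonneg_left (big hβ hθ (hc i) x y b e1) hp0
        refine le_trans ?_ (le_mul_of_one_le_left ?_ hE)
        · rw [add_div, mul_div_assoc']  at *
          linarith
        · rw [add_div]
          exact add_nonneg hn1 (add_nonneg hn2 hn3)
      by_cases e2 : θ ≤ val β (c i) (fl x b) - val β (c i) b
      · have hpp : pr β ch w c b i ≤ pr β ch w c (fl x b) i := by
          unfold pr gb
          refine mul_le_mul_of_nonneg_left (Real.exp_le_exp.2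
            (mul_le_mul_of_nonneg_left ?_ hγ)) (hw i)
          have e3 : val β (.node ch m w c) b = sm (gm β ch) w fun i => val β (c i) b := by
            rw [val]
          have e4 : val β (.node ch m w c) (fl x b) =
              sm (gm β ch) w fun i => val β (c i) (fl x b) := by
            rw [val]
          rw [e3, e4] at c1 c2
          linarith
        have h2 := mul_le_mul_of_nonneg_left (big' hβ hθ (hc i) x y b e2) hp0
        have h3 : pr β ch w c b i * (RR β x y (c i) (fl x b) / θ) ≤
            pr β ch w c (fl x b) i * RR β x y (c i) (fl x b) / θ := by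
          rw [mul_div_assoc]
          exact mul_le_mul_of_nonneg_right hpp (div_nonneg hRi' hθ.le)
        refine le_trans ?_ (le_mul_of_one_le_left ?_ hE)
        · rw [add_div]
          linarith
        · rw [add_div]
          exact add_nonneg hn1 (add_nonneg hn2 hn3)
      push Not at e1 e2
      have hpp : pr β ch w c b i ≤ Real.exp (2 * β * θ) * pr β ch w c (fl x b) i := by
        unfold pr gb
        have e5 : Real.exp (2 * β * θ) * (w i * Real.exp (gm β ch * (val β (c i) (fl x b) -
            sm (gm β ch) w fun i => val β (c i) (fl x b)))) =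
            w i * Real.exp (2 * β * θ + gm β ch * (val β (c i) (fl x b) -
            sm (gm β ch) w fun i => val β (c i) (fl x b))) := by
          rw [Real.exp_add]
          ring
        rw [e5]
        refine mul_le_mul_of_nonneg_left (Real.exp_le_exp.2 ?_) (hw i)
        have e3 : val β (.node ch m w c) b = sm (gm β ch) w fun i => val β (c i) b := by
          rw [val]
        have e4 : val β (.node ch m w c) (fl x b) =
            sm (gm β ch) w fun i => val β (c i) (fl x b) := by
          rw [val]
        rw [e3, e4] at c1 c2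
        have e6 : gm β ch * (val β (c i) b - sm (gm β ch) w fun i => val β (c i) b) ≤
            gm β ch * (2 * θ + (val β (c i) (fl x b) -
              sm (gm β ch) w fun i => val β (c i) (fl x b))) :=
          mul_le_mul_of_nonneg_left (by linarith) hγ
        have e7 : gm β ch * (2 * θ) ≤ β * (2 * θ) :=
          mul_le_mul_of_nonneg_right hγβ (by linarith)
        rw [mul_add] at e6
        linarith
      have hI := ih i _ (hc i) b
      set E := Real.exp (2 * β * θ) with hEdef
      set E' := Real.exp (2 * β * θ * (d - 1 : ℕ)) with hE'def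
      set p := pr β ch w c b i
      set p' := pr β ch w c (fl x b) i
      set a' := AA β y (c i) (fl x b)
      set r := RR β x y (c i) b
      set r' := RR β x y (c i) (fl x b)
      have hE'0 : 0 ≤ E' := (Real.exp_pos _).le
      calc p * AA β y (c i) b ≤ p * (E' * (a' + (r + r') / θ)) :=
            mul_le_mul_of_nonneg_left hI hp0
        _ = E' * (p * a' + p * r / θ + p * (r' / θ)) := by ring
        _ ≤ E' * (E * p' * a' + E * (p * r / θ) + E * p' * (r' / θ)) := by
            refine mul_le_mul_of_nonneg_left ?_ hE'0
            refine add_le_add (add_le_add (mul_le_mul_of_nonneg_right hpp hAi) ?_)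
              (mul_le_mul_of_nonneg_right hpp (div_nonneg hRi' hθ.le))
            exact le_mul_of_one_le_left hn2 hE2
        _ = Real.exp (2 * β * θ * d) * (p' * a' + (p * r + p' * r') / θ) := by
            rw [hE1]
            ring
    have hsum := sum_le_sum fun i (_ : i ∈ (univ : Finset (Fin m))) => key i
    rw [← mul_sum, sum_add_distrib, ← sum_div, sum_add_distrib] at hsum
    have hR : ∀ b, ∑ i, pr β ch w c b i * RR β x y (c i) b ≤ RR β x y (.node ch m w c) b := by
      intro b
      have h0 := own_nonneg (β := β) x y hOk b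
      have h2 : RR β x y (.node ch m w c) b = own β x y (.node ch m w c) b +
          ∑ i, pr β ch w c b i * RR β x y (c i) b := by
        rw [RR]
      linarith
    have hAn : ∀ b, AA β y (.node ch m w c) b = ∑ i, pr β ch w c b i * AA β y (c i) b := by
      intro b
      rw [AA]
    rw [hAn, hAn]
    refine hsum.trans (mul_le_mul_of_nonneg_left ?_ (Real.exp_pos _).le)
    have := div_le_div_of_nonneg_right (add_le_add (hR b) (hR (fl x b))) hθ.le
    linarith

end Pool.Agent.H69.IP
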