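import Pool.Agent.H66.IP.TA

/-!
# Board ipf (MP_0f8dca_lc), row TRN: transport of the mass of `z` along the direction `x`
-/

set_option autoImplicit false

open Finset Pool.Agent.H66.IP

namespace Pool.Agent.H69.IP

section TRNb

variable {V : Type} [Fintype V] [DecidableEq V] {β θ : ℝ}

theorem TRNb_ff (x : V) (b : V → Bool) : fp x (fp x b) = b := by
  funext z
  unfold fp
  by_cases h : z = x
  · subst h
    simp
  · simp [h]

theorem TRNb_diff (x : V) (b : V → Bool) : univ.filter (fun z => b z ≠ fp x b z) = {x} := by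
  ext z
  rw [mem_filter, mem_singleton]
  unfold fp
  by_cases h : z = x
  · subst h
    simp
  · simp [h]

theorem TRNb_sub (hLIP : T_LIP) (hβ : 0 < β) (t : Tr V) (x : V) (b : V → Bool) :
    t.sv β b - t.sv β (fp x b) ≤ t.ms β x b := by
  have h1 := hLIP V β t b (fp x b) hβ
  rwa [TRNb_diff, sum_singleton] at h1

theorem TRNb_sub' (hLIP : T_LIP) (hβ : 0 < β) (t : Tr V) (x : V) (b : V → Bool) :
    t.sv β (fp x b) - t.sv β b ≤ t.ms β x (fp x b) := by
  have h1 := TRNb_sub hLIP hβ t x (fp x b)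
  rwa [TRNb_ff] at h1

theorem TRNb_own (hMSS : T_MSS) (hβ : 0 < β) (x z : V) (t : Tr V) (b : V → Bool) :
    t.ms β x b * t.ms β z b ≤ t.own β x z b := by
  have h := fun x b => ((hMSS V β t b hβ).1 x).1
  have h1 := mul_nonneg (h x b) (h z (Function.update b x (!b x)))
  have h2 := mul_nonneg (h z b) (add_nonneg (h x b) (h x (Function.update b z (!b z))))
  unfold Tr.own
  rw [mul_add]
  linarith

theorem TRNb_own' (hMSS : T_MSS) (hβ : 0 < β) (x z : V) (t : Tr V) (b : V → Bool) :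
    t.ms β x (fp x b) * t.ms β z b ≤ t.own β x z (fp x b) := by
  have h := fun x b => ((hMSS V β t b hβ).1 x).1
  have h1 := mul_nonneg (h x (fp x b)) (h z (fp x b))
  have h2 := mul_nonneg (h z (fp x b)) (add_nonneg (h x (fp x b))
    (h x (Function.update (fp x b) z (!(fp x b) z))))
  have h3 : Function.update (fp x b) x (!(fp x b) x) = b := TRNb_ff x b
  unfold Tr.own
  rw [mul_add, h3]
  linarith

theorem TRNb_big (hMSS : T_MSS) (hLIP : T_LIP) (hRSM : T_RSM) (hβ : 0 < β) (hθ : 0 < θ)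
    (t : Tr V) (x z : V) (b : V → Bool) (hb : θ ≤ t.sv β b - t.sv β (fp x b)) :
    t.ms β z b ≤ t.rr β x z b / θ := by
  rw [le_div_iff₀ hθ]
  have h1 := TRNb_sub hLIP hβ t x b
  have h2 := TRNb_own hMSS hβ x z t b
  have h3 := ((hRSM V β t b hβ).1 x z).2
  have h4 := ((hMSS V β t b hβ).1 z).1
  nlinarith

theorem TRNb_big' (hMSS : T_MSS) (hLIP : T_LIP) (hRSM : T_RSM) (hβ : 0 < β) (hθ : 0 < θ)
    (t : Tr V) (x z : V) (b : V → Bool) (hb : θ ≤ t.sv β (fp x b) - t.sv β b) :
    t.ms β z b ≤ t.rr β x z (fp x b) / θ := by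
  rw [le_div_iff₀ hθ]
  have h1 := TRNb_sub' hLIP hβ t x b
  have h2 := TRNb_own' hMSS hβ x z t b
  have h3 := ((hRSM V β t (fp x b) hβ).1 x z).2
  have h4 := ((hMSS V β t b hβ).1 z).1
  nlinarith

/-- One child of a choice node. `p`, `p'` are the weights at the two points. -/
theorem TRNb_child {p p' A A' R R' E E' E'' θ : ℝ} (hp : 0 ≤ p) (hp' : 0 ≤ p') (hA' : 0 ≤ A')
    (hR : 0 ≤ R) (hR' : 0 ≤ R') (hθ : 0 < θ) (hE : 1 ≤ E) (hE' : 1 ≤ E') (hE'' : E * E' ≤ E'')
    (h : A ≤ R / θ ∨ (A ≤ R' / θ ∧ p ≤ p') ∨ (p ≤ E * p' ∧ A ≤ E' * (A' + (R + R') / θ))) :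
    p * A ≤ E'' * (p' * A' + (p * R + p' * R') / θ) := by
  have hn1 : 0 ≤ p' * A' := mul_nonneg hp' hA'
  have hn2 : 0 ≤ p * R / θ := div_nonneg (mul_nonneg hp hR) hθ.le
  have hn3 : 0 ≤ p' * R' / θ := div_nonneg (mul_nonneg hp' hR') hθ.le
  have hE3 : 1 ≤ E'' := le_trans (by nlinarith) hE''
  rw [add_div]
  rcases h with h | h | h
  · have h2 := mul_le_mul_of_nonneg_left h hp
    rw [mul_div_assoc'] at h2
    refine le_trans ?_ (le_mul_of_one_le_left (add_nonneg hn1 (add_nonneg hn2 hn3)) hE3)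
    linarith
  · have h2 := mul_le_mul_of_nonneg_left h.1 hp
    have h3 : p * (R' / θ) ≤ p' * R' / θ := by
      rw [mul_div_assoc]
      exact mul_le_mul_of_nonneg_right h.2 (div_nonneg hR' hθ.le)
    refine le_trans ?_ (le_mul_of_one_le_left (add_nonneg hn1 (add_nonneg hn2 hn3)) hE3)
    linarith
  · calc p * A ≤ p * (E' * (A' + (R + R') / θ)) := mul_le_mul_of_nonneg_left h.2 hp
      _ = E' * (p * A' + p * R / θ + p * (R' / θ)) := by ring
      _ ≤ E' * (E * p' * A' + E * (p * R / θ) + E * p' * (R' / θ)) := by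
          refine mul_le_mul_of_nonneg_left ?_ (by linarith)
          refine add_le_add (add_le_add (mul_le_mul_of_nonneg_right h.1 hA') ?_)
            (mul_le_mul_of_nonneg_right h.1 (div_nonneg hR' hθ.le))
          exact le_mul_of_one_le_left hn2 hE
      _ = (E * E') * (p' * A' + (p * R / θ + p' * R' / θ)) := by ring
      _ ≤ E'' * (p' * A' + (p * R / θ + p' * R' / θ)) :=
          mul_le_mul_of_nonneg_right hE'' (add_nonneg hn1 (add_nonneg hn2 hn3))

/-- The weights of a child. -/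
theorem TRNb_wt (hSMA : T_SMA) (hβ : 0 < β) {a b a' b' : ℝ}
    (h1 : smx β a' b' - smx β a b < θ) :
    (θ ≤ a' - a → gw β a b ≤ gw β a' b') ∧
    (smx β a' b' - smx β a b > -θ → a - a' < θ →
      gw β a b ≤ Real.exp (2 * β * θ) * gw β a' b') := by
  have e1 := (hSMA β hβ a b).2.2.1
  have e2 := (hSMA β hβ a' b').2.2.1
  constructor
  · intro h
    rw [e1, e2]
    refine div_le_div_of_nonneg_right (Real.exp_le_exp.2
      (mul_le_mul_of_nonneg_left ?_ hβ.le)) (by norm_num)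
    linarith
  · intro _ h
    rw [e1, e2, mul_div_assoc', ← Real.exp_add]
    refine div_le_div_of_nonneg_right (Real.exp_le_exp.2 ?_) (by norm_num)
    have : β * (a - smx β a b) ≤ β * (2 * θ + (a' - smx β a' b')) :=
      mul_le_mul_of_nonneg_left (by linarith) hβ.le
    linarith

theorem TRNb_main (hSMA : T_SMA) (hMSS : T_MSS) (hLIP : T_LIP) (hRSM : T_RSM)
    (hβ : 0 < β) (hθ : 0 < θ) (hθ1 : θ ≤ 1) (t : Tr V) (x z : V) (hxz : x ≠ z) :
    ∀ b : V → Bool, t.ms β z b ≤ Real.exp (2 * β * θ * t.cc) *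
      (t.ms β z (fp x b) + (t.rr β x z b + t.rr β x z (fp x b)) / θ) := by
  induction t with
  | lf c τ =>
    intro b
    classical
    have hE : 1 ≤ Real.exp (2 * β * θ * ((Tr.lf c τ : Tr V).cc : ℕ)) :=
      Real.one_le_exp (by positivity)
    have hA := ((hMSS V β (.lf c τ) (fp x b) hβ).1 z).1
    have hR1 := ((hRSM V β (.lf c τ) b hβ).1 x z)
    have hR2 := ((hRSM V β (.lf c τ) (fp x b) hβ).1 x z)
    have hRt : 0 ≤ ((Tr.lf c τ).rr β x z b + (Tr.lf c τ).rr β x z (fp x b)) / θ :=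
      div_nonneg (add_nonneg (hR1.1.trans hR1.2) (hR2.1.trans hR2.2)) hθ.le
    refine le_trans ?_ (le_mul_of_one_le_left (add_nonneg hA hRt) hE)
    by_cases c1 : θ ≤ (Tr.lf c τ).sv β b - (Tr.lf c τ).sv β (fp x b)
    · have h1 := TRNb_big hMSS hLIP hRSM hβ hθ (.lf c τ) x z b c1
      have h2 : 0 ≤ (Tr.lf c τ).rr β x z (fp x b) / θ :=
        div_nonneg (hR2.1.trans hR2.2) hθ.le
      rw [add_div]
      linarith
    by_cases c2 : θ ≤ (Tr.lf c τ).sv β (fp x b) - (Tr.lf c τ).sv β b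
    · have h1 := TRNb_big' hMSS hLIP hRSM hβ hθ (.lf c τ) x z b c2
      have h2 : 0 ≤ (Tr.lf c τ).rr β x z b / θ := div_nonneg (hR1.1.trans hR1.2) hθ.le
      rw [add_div]
      linarith
    push Not at c1 c2
    have h3 : lv c τ b = lv c τ (fp x b) := by
      unfold Tr.sv lv at c1 c2
      unfold lv
      split_ifs at c1 c2 ⊢ <;> first | rfl | linarith
    have h4 : (Tr.lf c τ).ms β z b = (Tr.lf c τ).ms β z (fp x b) := by
      unfold Tr.ms
      rw [h3]
    rw [h4]
    linarith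
  | av l r ihl ihr =>
    intro b
    have hcc : ∀ n : ℕ, n ≤ (Tr.av l r).cc → Real.exp (2 * β * θ * n) ≤
        Real.exp (2 * β * θ * (Tr.av l r).cc) := by
      intro n hn
      refine Real.exp_le_exp.2 (mul_le_mul_of_nonneg_left ?_ (by positivity))
      exact_mod_cast hn
    have hl := ihl b
    have hr := ihr b
    have hRl := fun b => ((hRSM V β l b hβ).1 x z)
    have hRr := fun b => ((hRSM V β r b hβ).1 x z)
    have hAl := ((hMSS V β l (fp x b) hβ).1 z).1
    have hAr := ((hMSS V β r (fp x b) hβ).1 z).1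
    have hNl : 0 ≤ l.ms β z (fp x b) + (l.rr β x z b + l.rr β x z (fp x b)) / θ :=
      add_nonneg hAl (div_nonneg (add_nonneg ((hRl b).1.trans (hRl b).2)
        ((hRl _).1.trans (hRl _).2)) hθ.le)
    have hNr : 0 ≤ r.ms β z (fp x b) + (r.rr β x z b + r.rr β x z (fp x b)) / θ :=
      add_nonneg hAr (div_nonneg (add_nonneg ((hRr b).1.trans (hRr b).2)
        ((hRr _).1.trans (hRr _).2)) hθ.le)
    have hl' := hl.trans (mul_le_mul_of_nonneg_right (hcc l.cc (le_max_left _ _)) hNl)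
    have hr' := hr.trans (mul_le_mul_of_nonneg_right (hcc r.cc (le_max_right _ _)) hNr)
    have hRn : ∀ b, (l.rr β x z b + r.rr β x z b) / 2 ≤ (Tr.av l r).rr β x z b := by
      intro b
      have h0 := ((hRSM V β (.av l r) b hβ).1 x z).1
      have h1 : (Tr.av l r).rr β x z b =
          (Tr.av l r).own β x z b + (l.rr β x z b + r.rr β x z b) / 2 := by
        rw [Tr.rr]
      linarith
    have hms : ∀ b, (Tr.av l r).ms β z b = (l.ms β z b + r.ms β z b) / 2 := by
      intro b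
      rw [Tr.ms]
    rw [hms, hms]
    have h5 := div_le_div_of_nonneg_right (add_le_add (hRn b) (hRn (fp x b))) hθ.le
    have h6 : (l.ms β z b + r.ms β z b) / 2 ≤ Real.exp (2 * β * θ * (Tr.av l r).cc) *
        ((l.ms β z (fp x b) + r.ms β z (fp x b)) / 2 +
          ((l.rr β x z b + r.rr β x z b) / 2 +
            (l.rr β x z (fp x b) + r.rr β x z (fp x b)) / 2) / θ) := by
      have h7 : ∀ E A B C D A' B' θ : ℝ, E * ((A + A') / 2 + ((B + B') / 2 + (C + D) / 2) / θ) =
          (E * (A + (B + C) / θ) + E * (A' + (B' + D) / θ)) / 2 := by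
        intro E A B C D A' B' θ
        ring
      rw [h7]
      linarith
    refine h6.trans (mul_le_mul_of_nonneg_left ?_ (Real.exp_pos _).le)
    linarith
  | ch l r ihl ihr =>
    intro b
    have hE : 1 ≤ Real.exp (2 * β * θ * ((Tr.ch l r).cc : ℕ)) := Real.one_le_exp (by positivity)
    have hA := ((hMSS V β (.ch l r) (fp x b) hβ).1 z).1
    have hR1 := ((hRSM V β (.ch l r) b hβ).1 x z)
    have hR2 := ((hRSM V β (.ch l r) (fp x b) hβ).1 x z)
    have hR1' := hR1.1.trans hR1.2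
    have hR2' := hR2.1.trans hR2.2
    have hRt : 0 ≤ ((Tr.ch l r).rr β x z b + (Tr.ch l r).rr β x z (fp x b)) / θ :=
      div_nonneg (add_nonneg hR1' hR2') hθ.le
    by_cases c1 : θ ≤ (Tr.ch l r).sv β b - (Tr.ch l r).sv β (fp x b)
    · refine le_trans ?_ (le_mul_of_one_le_left (add_nonneg hA hRt) hE)
      have h1 := TRNb_big hMSS hLIP hRSM hβ hθ (.ch l r) x z b c1
      have h2 := div_nonneg hR2' hθ.le
      rw [add_div]
      linarith
    by_cases c2 : θ ≤ (Tr.ch l r).sv β (fp x b) - (Tr.ch l r).sv β b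
    · refine le_trans ?_ (le_mul_of_one_le_left (add_nonneg hA hRt) hE)
      have h1 := TRNb_big' hMSS hLIP hRSM hβ hθ (.ch l r) x z b c2
      have h2 := div_nonneg hR1' hθ.le
      rw [add_div]
      linarith
    push Not at c1 c2
    have hsv : ∀ b, (Tr.ch l r).sv β b = smx β (l.sv β b) (r.sv β b) := fun b => by rw [Tr.sv]
    rw [hsv, hsv] at c1 c2
    have hE1 : 1 ≤ Real.exp (2 * β * θ) := Real.one_le_exp (by positivity)
    have hEn : ∀ n : ℕ, 1 ≤ Real.exp (2 * β * θ * n) := fun n => Real.one_le_exp (by positivity)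
    have hEE : ∀ n : ℕ, n + 1 ≤ (Tr.ch l r).cc →
        Real.exp (2 * β * θ) * Real.exp (2 * β * θ * n) ≤
          Real.exp (2 * β * θ * (Tr.ch l r).cc) := by
      intro n hn
      rw [← Real.exp_add]
      refine Real.exp_le_exp.2 ?_
      have h1 : ((n : ℝ) + 1) ≤ (Tr.ch l r).cc := by exact_mod_cast hn
      have h2 : 2 * β * θ * (n + 1) ≤ 2 * β * θ * (Tr.ch l r).cc :=
        mul_le_mul_of_nonneg_left h1 (by positivity)
      linarith
    have hms : ∀ b, (Tr.ch l r).ms β z b = gw β (l.sv β b) (r.sv β b) * l.ms β z b +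
        gw β (r.sv β b) (l.sv β b) * r.ms β z b := by
      intro b
      rw [Tr.ms]
    have hRn : ∀ b, gw β (l.sv β b) (r.sv β b) * l.rr β x z b +
        gw β (r.sv β b) (l.sv β b) * r.rr β x z b ≤ (Tr.ch l r).rr β x z b := by
      intro b
      have h0 := ((hRSM V β (.ch l r) b hβ).1 x z).1
      have h1 : (Tr.ch l r).rr β x z b = (Tr.ch l r).own β x z b +
          (gw β (l.sv β b) (r.sv β b) * l.rr β x z b +
            gw β (r.sv β b) (l.sv β b) * r.rr β x z b) := by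
        rw [Tr.rr]
      linarith
    have hgw : ∀ a b : ℝ, 0 ≤ gw β a b := fun a b => (hSMA β hβ a b).2.1.1.le
    have step : ∀ (c c' : Tr V), (∀ b : V → Bool, c.ms β z b ≤ Real.exp (2 * β * θ * c.cc) *
          (c.ms β z (fp x b) + (c.rr β x z b + c.rr β x z (fp x b)) / θ)) →
        c.cc + 1 ≤ (Tr.ch l r).cc →
        smx β (c.sv β (fp x b)) (c'.sv β (fp x b)) - smx β (c.sv β b) (c'.sv β b) < θ →
        smx β (c.sv β (fp x b)) (c'.sv β (fp x b)) - smx β (c.sv β b) (c'.sv β b) > -θ →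
        gw β (c.sv β b) (c'.sv β b) * c.ms β z b ≤ Real.exp (2 * β * θ * (Tr.ch l r).cc) *
          (gw β (c.sv β (fp x b)) (c'.sv β (fp x b)) * c.ms β z (fp x b) +
            (gw β (c.sv β b) (c'.sv β b) * c.rr β x z b +
              gw β (c.sv β (fp x b)) (c'.sv β (fp x b)) * c.rr β x z (fp x b)) / θ) := by
      intro c c' ih hcc d1 d2
      have hRc := fun b => ((hRSM V β c b hβ).1 x z)
      refine TRNb_child (hgw _ _) (hgw _ _) ((hMSS V β c (fp x b) hβ).1 z).1
        ((hRc b).1.trans (hRc b).2) ((hRc _).1.trans (hRc _).2) hθ hE1 (hEn c.cc)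
        (hEE c.cc hcc) ?_
      have hw := TRNb_wt (θ := θ) hSMA hβ d1
      by_cases e1 : θ ≤ c.sv β b - c.sv β (fp x b)
      · exact Or.inl (TRNb_big hMSS hLIP hRSM hβ hθ c x z b e1)
      by_cases e2 : θ ≤ c.sv β (fp x b) - c.sv β b
      · exact Or.inr (Or.inl ⟨TRNb_big' hMSS hLIP hRSM hβ hθ c x z b e2, hw.1 e2⟩)
      push Not at e1 e2
      exact Or.inr (Or.inr ⟨hw.2 d2 e1, ih b⟩)
    have hl := step l r ihl (Nat.succ_le_succ (le_max_left _ _)) c2 (by linarith)
    have hsym : ∀ a b : ℝ, smx β a b = smx β b a := fun a b => (hSMA β hβ a b).1.2.2.2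
    have hr := step r l ihr (Nat.succ_le_succ (le_max_right _ _))
      (by rw [hsym (r.sv β (fp x b)), hsym (r.sv β b)]; exact c2)
      (by rw [hsym (r.sv β (fp x b)), hsym (r.sv β b)]; linarith)
    rw [hms, hms]
    have h5 := div_le_div_of_nonneg_right (add_le_add (hRn b) (hRn (fp x b))) hθ.le
    refine (add_le_add hl hr).trans ?_
    rw [← mul_add]
    refine mul_le_mul_of_nonneg_left ?_ (Real.exp_pos _).le
    have h7 : ∀ A B C D A' B' C' D' θ : ℝ, A + (B + C) / θ + (A' + (B' + C') / θ) =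
        A + A' + (B + B' + (C + C')) / θ := by
      intro A B C D A' B' C' D' θ
      ring
    rw [h7 _ _ _ 0 _ _ _ 0 _]
    linarith

end TRNb

theorem pf_TRN' (hSMA : T_SMA) (_hEVS : T_EVS) (hMSS : T_MSS) (hLIP : T_LIP) (hRSM : T_RSM) :
    T_TRN := by
  intro V _ _ β k t y x z hβ hk hcc hxz
  have hβ0 : 0 < β := by linarith
  have hk' : (1 : ℝ) ≤ k := by exact_mod_cast hk
  have hθ : 0 < tht β k := by
    unfold tht
    positivity
  have hθ1 : tht β k ≤ 1 := by
    unfold tht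
    rw [div_le_one (by positivity)]
    nlinarith
  refine (TRNb_main hSMA hMSS hLIP hRSM hβ0 hθ hθ1 t x z hxz y).trans ?_
  have hR1 := ((hRSM V β t y hβ0).1 x z)
  have hR2 := ((hRSM V β t (fp x y) hβ0).1 x z)
  have hA := ((hMSS V β t (fp x y) hβ0).1 z).1
  refine mul_le_mul_of_nonneg_right ?_ (add_nonneg hA (div_nonneg (add_nonneg
    (hR1.1.trans hR1.2) (hR2.1.trans hR2.2)) hθ.le))
  have h1 : 2 * β * tht β k * t.cc ≤ 1 := by
    have h2 : (t.cc : ℝ) ≤ k := by exact_mod_cast hcc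
    have h3 : 2 * β * tht β k * t.cc ≤ 2 * β * tht β k * k :=
      mul_le_mul_of_nonneg_left h2 (by positivity)
    refine h3.trans ?_
    unfold tht
    have h4 : 2 * β * (1 / (40 * β * k)) * k = 1 / 20 := by
      field_simp
      norm_num
    rw [h4]
    norm_num
  have h5 := Real.exp_le_exp.2 h1
  have h6 := Real.exp_one_lt_d9
  linarith

end Pool.Agent.H69.IP
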